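import Pool.Agent.H23.XW.Lim

/-!
# [DIM X] the iterates over compact parts of the windows (`ts_pb`, `wl_loc` of H23/XW/Main)

`wl_loc`: `F n s → F' s` locally uniformly on `φ (s+1) '' ball 0 1`. `ts_pb`: for `w` in a compact subset `K` of `φ (s+1) '' ball 0 1`
the point `c + R n w` is `χ n (s+1) v`, so its orbit stays in `U` up to the time `k n s`, and it ends at `c + R n (Tn .. w)`, where
`Tn .. w` is bounded on `K` and `R n → 0`.
-/

set_option autoImplicit false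

open Filter Topology Metric Set

namespace Pool.Agent.H21.XW

open Pool.Agent.H66.GEO (Bl BB)
open Pool.Agent.H56.UD (Ph dm Pn PS)
open Pool.Agent.H64.XL (b1 Wt Tw)
open Pool.Agent.H23.XW

variable {f : ℂ → ℂ} {U J P Cr : Set ℂ} {δ : ℝ} {𝒰 : Ultrafilter ℕ} {c z : ℂ} {θ r M : ℝ} {ε : ℕ → ℝ}
  {S : ℕ → ℕ} {k t : ℕ → ℕ → ℕ} {α x : ℕ → ℕ → ℂ} {χ : ℕ → ℕ → ℂ → ℂ}

/-- convergence in the form of locally uniform convergence -/
theorem wl_loc {th : ℝ} {Pm : ℕ → Set ℂ} {Φ F : ℕ → ℕ → ℂ → ℂ} {φ F' : ℕ → ℂ → ℂ} {α' : ℕ → ℂ}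
    (hW : WL 𝒰 th r Pm Φ F α φ F' α') (s : ℕ) :
    IsOpen (φ (s + 1) '' ball 0 1) ∧ TendstoLocallyUniformlyOn (fun n => F n s) (F' s) (𝒰 : Filter ℕ) (φ (s + 1) '' ball 0 1) := by
  have ho : IsOpen (φ (s + 1) '' ball 0 1) := ih_open isOpen_ball (hW.dφ (s + 1)) (hW.iφ (s + 1))
  refine ⟨ho, ?_⟩
  rw [tendstoLocallyUniformlyOn_iff_forall_isCompact ho]
  intro K hKs hK
  rw [Metric.tendstoUniformlyOn_iff]
  intro ε hε
  filter_upwards [hW.cF s K hK hKs ε hε] with n hn w hw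
  rw [dist_comm, dist_eq_norm]
  exact hn w hw

/-- the scale tends to zero and is not zero -/
theorem ts_R (hT : TS 𝒰 f U J P δ c z θ r M ε S k t α x χ) :
    Tendsto (fun n => ‖deriv (χ n 0) 0‖) (𝒰 : Filter ℕ) (𝓝 0) ∧ ∀ᶠ n in (𝒰 : Filter ℕ), deriv (χ n 0) 0 ≠ 0 := by
  constructor
  · refine squeeze_zero' (Eventually.of_forall fun n => norm_nonneg _) ?_ hT.εt
    filter_upwards [hT.w] with n hn
    have h1 : MapsTo (χ n 0) (ball 0 1) (closedBall (χ n 0 0) (ε n)) := by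
      intro v hv
      rw [hn.c0]
      exact ball_subset_closedBall (hn.e v hv)
    have h2 := Complex.norm_deriv_le_div_of_mapsTo_ball hn.d h1 one_pos
    rwa [div_one] at h2
  · filter_upwards [hT.w] with n hn
    exact ih_der isOpen_ball hn.d hn.i (mem_ball_self one_pos)

/-- the iterates over compact subsets of `X_(s+1)` -/
theorem ts_pb (hδ : 0 < δ) (hcJ : c ∈ J) (hT : TS 𝒰 f U J P δ c z θ r M ε S k t α x χ) {φ F : ℕ → ℂ → ℂ} {α' : ℕ → ℂ}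
    (hW : WL 𝒰 θ r (Pn P (fun _ => c) (fun n => deriv (χ n 0) 0)) (Xn c χ) (Tn f c k χ) α φ F α') (s : ℕ) {K : Set ℂ}
    (hK : IsCompact K) (hKs : K ⊆ φ (s + 1) '' ball 0 1) : ∀ᶠ n in (𝒰 : Filter ℕ), ∀ w ∈ K,
      c + deriv (χ n 0) 0 * w ∈ dm f U J δ (k n s) ∧ f^[k n s] (c + deriv (χ n 0) 0 * w) = c + deriv (χ n 0) 0 * Tn f c k χ n s w := by
  obtain ⟨hR0, hRn⟩ := ts_R hT
  have ho : IsOpen (φ (s + 1) '' ball 0 1) := ih_open isOpen_ball (hW.dφ (s + 1)) (hW.iφ (s + 1))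
  obtain ⟨C, hC⟩ : ∃ C : ℝ, ∀ w ∈ K, ‖F s w‖ ≤ C := hK.exists_bound_of_continuousOn ((hW.dF s).continuousOn.mono hKs)
  have hsm : Tendsto (fun n => ‖deriv (χ n 0) 0‖ * (|C| + 1)) (𝒰 : Filter ℕ) (𝓝 0) := by
    have := hR0.mul_const (|C| + 1)
    rwa [zero_mul] at this
  filter_upwards [hRn, hW.cK (s + 1) K hK hKs, hW.cF s K hK hKs 1 one_pos, hT.tw, hT.St (s + 1),
    hsm.eventually (gt_mem_nhds hδ)] with n h1 h2 h3 h4 h5 h6 w hw
  have hTn : f^[k n s] (c + deriv (χ n 0) 0 * w) = c + deriv (χ n 0) 0 * Tn f c k χ n s w := by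
    unfold Tn
    rw [mul_div_cancel₀ _ h1]
    ring
  refine ⟨⟨?_, ?_⟩, hTn⟩
  · obtain ⟨v, hv, hvw⟩ := h2 hw
    have h7 : c + deriv (χ n 0) 0 * w = χ n (s + 1) v := by
      rw [← hvw]
      unfold Xn
      rw [mul_div_cancel₀ _ h1]
      ring
    rw [h7]
    exact (h4.st s (by omega) v hv).1
  · rw [hTn, mem_thickening_iff]
    refine ⟨c, hcJ, ?_⟩
    rw [dist_eq_norm, add_sub_cancel_left, norm_mul]
    refine lt_of_le_of_lt (mul_le_mul_of_nonneg_left ?_ (norm_nonneg _)) h6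
    have h7 := (h3 w hw).le
    have h8 := hC w hw
    have h9 := norm_add_le (Tn f c k χ n s w - F s w) (F s w)
    rw [sub_add_cancel] at h9
    have h10 := le_abs_self C
    linarith

end Pool.Agent.H21.XW
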